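import Mathlib
import Pool.Agent.H9.SD.Final

set_option autoImplicit false

/-!
# Self-dual 3-simplicial polytopes in all dimensions `d ≥ 13`

If a polytope `P` is `k`-simplicial and its polar is `k`-simplicial, then the join of `P` and its polar is
self-dual and `k`-simplicial. We apply this to the half cube of dimension six (32 vertices) and its
polar (44 vertices): the join is a self-dual 3-simplicial 13-polytope with 76 vertices. Iterated pyramids
give all larger dimensions.

The faces of the half cube are classified by linear functionals, the polar duality is proved from
explicit optimal dual solutions for all linear functionals on the half cube.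
-/

namespace Pool.Agent.Results.MP_437a0d_co.ThreeSimplicial

open Pool.Agent.H9.SD

/-- For every `d ≥ 13` there is a self-dual 3-simplicial `d`-polytope with more than `d + 1` vertices
(so it is not combinatorially isomorphic to the simplex). -/
theorem result : ∀ d : ℕ, 13 ≤ d →
    ∃ (X W : Type) (_ : Fintype X) (_ : AddCommGroup W) (_ : Module ℝ W) (v : X → W),
      IsPoly v d ∧ DualTo v v ∧ KSimp v 3 ∧ d + 1 < Fintype.card X :=
  good_all

end Pool.Agent.Results.MP_437a0d_co.ThreeSimplicial
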